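import Mathlib

set_option autoImplicit false

namespace Pool.Agent.H.MP_8859ef_al

open Set Topology Filter Module

abbrev K : Type := ZMod 2

abbrev Ω : Type := ℕ → K

noncomputable def e (n : ℕ) : Ω := Pi.single n 1

lemma ex_form : ∃ (β : Ω →ₗ[K] Ω →ₗ[K] K) (X : Set Ω), (∀ f g, β f g = β g f) ∧
    (∀ n g, β (e n) g = g n) ∧ ¬ X.Countable ∧ (∀ x ∈ X, β x x = 1) ∧
    ∀ x ∈ X, ∀ y ∈ X, x ≠ y → β x y = 0 := by
  classical
  have hs : LinearIndepOn K id (range e) := (Pi.linearIndependent_single_one ℕ K).linearIndepOn_id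
  let b := Basis.extend hs
  have hb : ∀ i, b i = i := Basis.extend_apply_self hs
  let M : hs.extend (subset_univ _) → hs.extend (subset_univ _) → K := fun i j =>
    if i.1 ∈ range e ∨ j.1 ∈ range e then ∑ᶠ n, i.1 n * j.1 n else if i = j then 1 else 0
  let β : Ω →ₗ[K] Ω →ₗ[K] K := b.constr K fun i => b.constr K (M i)
  have h1 : ∀ i j, β i.1 j.1 = M i j := fun i j => by
    rw [← hb, ← hb j]
    simp only [β, Basis.constr_basis]
  refine ⟨β, hs.extend (subset_univ _) \ range e, fun f g => ?_, fun n g => ?_, fun h => ?_,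
    fun x hx => ?_, fun x hx y hy h => ?_⟩
  · have : β = β.flip := b.ext fun i => b.ext fun j => by
      simp only [hb, LinearMap.flip_apply, h1, M, or_comm, mul_comm, eq_comm]
    exact LinearMap.congr_fun₂ this f g
  · have : β (e n) = LinearMap.proj n := b.ext fun j => by
      rw [hb, h1 ⟨e n, hs.subset_extend _ ⟨n, rfl⟩⟩]
      simp only [M, mem_range_self, true_or, if_true]
      rw [finsum_eq_single _ n fun m hm => by simp [e, hm]]
      simp [e]
    exact LinearMap.congr_fun this g
  · have : Countable (hs.extend (subset_univ _)) :=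
      ((h.union (countable_range e)).mono (subset_sdiff_union _ _)).to_subtype
    have : Uncountable Ω := Cardinal.aleph0_lt_mk_iff.1 (by simp [Cardinal.aleph0_lt_continuum])
    exact not_countable (b.repr.injective.countable)
  · rw [h1 ⟨x, hx.1⟩ ⟨x, hx.1⟩]
    simp only [M, hx.2, or_self, if_false, if_true]
  · rw [h1 ⟨x, hx.1⟩ ⟨y, hy.1⟩]
    simp only [M, hx.2, hy.2, or_self, if_false, Subtype.mk.injEq, h]

noncomputable def β : Ω →ₗ[K] Ω →ₗ[K] K := ex_form.choose

lemma β_symm (f g) : β f g = β g f := ex_form.choose_spec.choose_spec.1 f g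

lemma β_e (n g) : β (e n) g = g n := ex_form.choose_spec.choose_spec.2.1 n g

noncomputable def φ : (ℕ →₀ K) →ₗ[K] Ω := Finsupp.linearCombination K e

lemma dens (x : Ω) (J : Finset Ω) : ∃ d, ∀ g ∈ J, β (φ d) g = β x g := by
  classical
  let Φ : Ω →ₗ[K] J → K := LinearMap.pi fun g => β.flip g.1
  by_contra h
  have h1 : Φ x ∉ LinearMap.range (Φ ∘ₗ φ) := fun ⟨d, hd⟩ =>
    h ⟨d, fun g hg => congrFun hd ⟨g, hg⟩⟩
  obtain ⟨l, h2, h3⟩ := Submodule.exists_dual_map_eq_bot_of_notMem h1 inferInstance
  have h4 : ∀ f, l (Φ f) = β f (∑ j : J, l (fun i => if j = i then 1 else 0) • j.1) := fun f => by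
    rw [LinearMap.pi_apply_eq_sum_univ]
    simp [Φ, mul_comm]
  have h5 : (∑ j : J, l (fun i => if j = i then 1 else 0) • j.1) = 0 := funext fun n => by
    refine (β_e n _).symm.trans ((h4 _).symm.trans ?_)
    exact h3.le ⟨_, ⟨Finsupp.single n 1, by simp [φ]⟩, rfl⟩
  exact h2 (by rw [h4, h5, map_zero])

abbrev V : Type := Ω × Ω

noncomputable def B : V →ₗ[K] V →ₗ[K] K := β.compl₁₂ (LinearMap.fst K _ _) (LinearMap.snd K _ _)

lemma B_def (v w : V) : B v w = β v.1 w.2 := rfl

@[ext] structure G : Type where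
  v : V
  t : K

noncomputable instance : Mul G := ⟨fun x y => ⟨x.v + y.v, x.t + y.t + B x.v y.v⟩⟩
instance : One G := ⟨⟨0, 0⟩⟩
noncomputable instance : Inv G := ⟨fun x => ⟨-x.v, -x.t + B x.v x.v⟩⟩

lemma mul_v (x y : G) : (x * y).v = x.v + y.v := rfl
lemma mul_t (x y : G) : (x * y).t = x.t + y.t + B x.v y.v := rfl
lemma inv_v (x : G) : x⁻¹.v = -x.v := rfl
lemma inv_t (x : G) : x⁻¹.t = -x.t + B x.v x.v := rfl

noncomputable instance : Group G := Group.ofLeftAxioms
  (fun x y z => G.ext (add_assoc _ _ _) (by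
    simp only [mul_v, mul_t, map_add, LinearMap.add_apply]; ring))
  (fun x => G.ext (zero_add _) (by change 0 + _ + B 0 _ = _; simp))
  (fun x => G.ext (neg_add_cancel _) (by
    change -x.t + B x.v x.v + x.t + B (-x.v) x.v = 0
    rw [map_neg, LinearMap.neg_apply]
    ring))

lemma top (π : V →+ V) (h : (∀ v w, B v w = B v (π w)) ∨ ∀ v w, B v w = B (π v) w) :
    ∃ τ : TopologicalSpace G, IsTopologicalGroup G ∧ T2Space G ∧ ∀ (x : G) (E : Set G),
      (∀ J : Finset V, ∃ y ∈ E, π y.v = π x.v ∧ y.t = x.t ∧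
        ∀ w ∈ J, B y.v w = B x.v w ∧ B w y.v = B w x.v) → x ∈ closure E := by
  let _ : TopologicalSpace V := ⊥
  have : DiscreteTopology V := ⟨rfl⟩
  let ψ : G → V × K × (V → K × K) := fun x => (π x.v, x.t, fun w => (B x.v w, B w x.v))
  let τ : TopologicalSpace G := TopologicalSpace.induced ψ inferInstance
  have c0 : Continuous ψ := continuous_induced_dom
  have c1 : Continuous fun x : G => π x.v := c0.fst
  have c2 : Continuous fun x : G => x.t := c0.snd.fst
  have c3 : ∀ w, Continuous fun x : G => B x.v w := fun w =>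
    ((continuous_apply w).comp c0.snd.snd).fst
  have c4 : ∀ w, Continuous fun x : G => B w x.v := fun w =>
    ((continuous_apply w).comp c0.snd.snd).snd
  have c5 : Continuous fun p : G × G => B p.1.v p.2.v := by
    rcases h with h | h
    · simp only [fun p : G × G => h p.1.v p.2.v]
      exact (continuous_prod_of_discrete_right (f := fun p : G × V => B p.1.v p.2).2 c3).comp
        (continuous_fst.prodMk (c1.comp continuous_snd))
    · simp only [fun p : G × G => h p.1.v p.2.v]
      exact (continuous_prod_of_discrete_left (f := fun p : V × G => B p.1 p.2.v).2 c4).comp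
        ((c1.comp continuous_fst).prodMk continuous_snd)
  refine ⟨τ, { continuous_mul := continuous_induced_rng.2 ?_
               continuous_inv := continuous_induced_rng.2 ?_ },
    T2Space.of_injective_continuous (fun x y H => ?_) c0, fun x E hE => ?_⟩
  · simp only [Function.comp_def, ψ, mul_v, mul_t, map_add, LinearMap.add_apply]
    refine (continuous_of_discreteTopology (f := fun p : V × V => p.1 + p.2).comp
      ((c1.comp continuous_fst).prodMk (c1.comp continuous_snd))).prodMk
      ((((c2.comp continuous_fst).add (c2.comp continuous_snd)).add c5).prodMk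
        (continuous_pi fun w => (((c3 w).comp continuous_fst).add ((c3 w).comp continuous_snd)).prodMk
          (((c4 w).comp continuous_fst).add ((c4 w).comp continuous_snd))))
  · simp only [Function.comp_def, ψ, inv_v, inv_t, map_neg, LinearMap.neg_apply]
    exact (continuous_of_discreteTopology (f := fun p : V => -p).comp c1).prodMk
      ((c2.neg.add (c5.comp (continuous_id.prodMk continuous_id))).prodMk
        (continuous_pi fun w => (c3 w).neg.prodMk (c4 w).neg))
  · have h1 := fun w => Prod.ext_iff.1 (congrFun (congrArg (fun p : V × K × (V → K × K) => p.2.2) H) w)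
    refine G.ext (Prod.ext (funext fun n => ?_) (funext fun n => ?_)) (congrArg (fun p => p.2.1) H)
    · simpa only [ψ, B_def, β_symm _ (e n), β_e] using (h1 (0, e n)).1
    · simpa only [ψ, B_def, β_e] using (h1 (e n, 0)).2
  · refine mem_closure_iff.2 fun U hU hx => ?_
    obtain ⟨W, h1, rfl⟩ := isOpen_induced_iff.1 hU
    obtain ⟨F, u, h2, h3⟩ := isOpen_pi_iff.1 (h1.preimage (f := fun z => (π x.v, x.t, z))
      (by fun_prop)) _ hx
    obtain ⟨y, h4, h5, h6, h7⟩ := hE F
    refine ⟨y, ?_, h4⟩
    change (_, _, _) ∈ W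
    rw [h5, h6]
    exact h3 fun w hw => by
      simp only [h7 w hw]
      exact (h2 w hw).2

end Pool.Agent.H.MP_8859ef_al
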